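import Pool.Agent.Helper70_Kotzig.TwoPerfect

namespace Pool.Agent.Helper70_Kotzig

open Finset

/-- Counting: a map from a set with `|α| ≤ |E|` elements hitting all of `E` is injective into `E`. -/
theorem inj_of_covers {α β : Type*} [Fintype α] [DecidableEq β] (f : α → β) (E : Finset β)
    (hE : ∀ e ∈ E, ∃ a, f a = e) (hc : Fintype.card α ≤ E.card) :
    Function.Injective f ∧ ∀ a, f a ∈ E := by
  classical
  have hsub : E ⊆ univ.image f := by
    intro e he
    obtain ⟨a, ha⟩ := hE e he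
    exact mem_image.2 ⟨a, mem_univ _, ha⟩
  have hle : (univ.image f).card ≤ Fintype.card α := card_image_le
  have heq : E = univ.image f := eq_of_subset_of_card_le hsub (hle.trans hc)
  have hcard : (univ.image f).card = (univ : Finset α).card := by
    apply le_antisymm hle
    rw [← heq]; exact hc
  refine ⟨?_, ?_⟩
  · have := card_image_iff.1 hcard
    intro x y hxy
    exact this (by simp) (by simp) hxy
  · intro a
    rw [heq]
    exact mem_image.2 ⟨a, mem_univ _, rfl⟩

/-- The pairs at a given distance of a closed walk which cover all edges do so exactly once. -/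
theorem unique_of_covers {n : ℕ} (hn : 0 < n * (n - 1) / 2)
    (v : ZMod (n * (n - 1) / 2) → Fin n) (c : ZMod (n * (n - 1) / 2))
    (h : ∀ a b, a ≠ b → ∃ i, s(v i, v (i + c)) = s(a, b)) :
    (∀ i, v i ≠ v (i + c)) ∧ ∀ a b, a ≠ b → ∃! i, s(v i, v (i + c)) = s(a, b) := by
  classical
  have : NeZero (n * (n - 1) / 2) := ⟨hn.ne'⟩
  have hcardE : ((univ : Finset (Sym2 (Fin n))).filter (fun e => ¬ e.IsDiag)).card
      = n * (n - 1) / 2 := by
    have h1 := Sym2.card_subtype_not_diag (α := Fin n)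
    rw [Fintype.card_subtype] at h1
    rw [h1, Fintype.card_fin, Nat.choose_two_right]
  have key := inj_of_covers (fun i => s(v i, v (i + c)))
    ((univ : Finset (Sym2 (Fin n))).filter (fun e => ¬ e.IsDiag)) (by
      intro e he
      induction e using Sym2.ind with
      | _ a b =>
        have hab : a ≠ b := by simpa using he
        exact h a b hab) (by rw [hcardE, ZMod.card])
  refine ⟨?_, ?_⟩
  · intro i hi
    have := key.2 i
    simp only [mem_filter, mem_univ, true_and, Sym2.mk_isDiag_iff] at this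
    exact this hi
  · intro a b hab
    obtain ⟨i, hi⟩ := h a b hab
    refine ⟨i, hi, ?_⟩
    intro j hj
    exact key.1 (hj.trans hi.symm)

/-- **Cyclic construction.**  Let `n = 2k+1` and let `d_0, …, d_{k-1}` be integers such that
`|d_i|` takes all values `1, …, k`, the cyclically consecutive sums `d_i + d_j` take all values
`2t+1` (`t < k`) modulo sign and modulo `n`, and `∑ d_i` is invertible modulo `n`.
Then there is an Eulerian P-quasigroup of order `n`. -/
theorem exists_of_cyclic (k : ℕ) (hk : 0 < k) (d : ℕ → ℤ)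
    (H1 : ∀ x : ℕ, 1 ≤ x → x ≤ k → ∃ i, i < k ∧ (d i = x ∨ d i = -x))
    (H2 : ∀ t : ℕ, t < k → ∃ i j : ℕ, ((i + 1 < k ∧ j = i + 1) ∨ (i + 1 = k ∧ j = 0)) ∧
      (d i + d j = 2 * t + 1 ∨ d i + d j = -(2 * t + 1) ∨ d i + d j = (2 * k + 1) - (2 * t + 1) ∨
        d i + d j = (2 * t + 1) - (2 * k + 1)))
    (c : ℤ) (H3 : (2 * k + 1 : ℤ) ∣ c * (∑ i ∈ range k, d i) - 1) :
    ∃ op : Fin (2 * k + 1) → Fin (2 * k + 1) → Fin (2 * k + 1),
      IsPGroupoid op ∧ IsQuasigroup op ∧ IsEulerian op := by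
  classical
  set n := 2 * k + 1 with hn
  have hm : n * (n - 1) / 2 = n * k := by
    have : n - 1 = 2 * k := by omega
    rw [this]
    rw [show n * (2 * k) = (n * k) * 2 by ring]
    exact Nat.mul_div_cancel _ (by norm_num)
  have hnpos : 0 < n := by omega
  have hmpos : 0 < n * (n - 1) / 2 := by rw [hm]; positivity
  have : NeZero n := ⟨hnpos.ne'⟩
  have : NeZero (n * (n - 1) / 2) := ⟨hmpos.ne'⟩
  set S : ℤ := ∑ i ∈ range k, d i with hS
  -- the walk
  let W : ℕ → ZMod n := fun j => ∑ i ∈ range j, ((d (i % k) : ℤ) : ZMod n)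
  have Wsucc : ∀ j, W (j + 1) = W j + ((d (j % k) : ℤ) : ZMod n) := by
    intro j; exact sum_range_succ _ _
  have Wk : W k = (S : ZMod n) := by
    simp only [W, hS, Int.cast_sum]
    apply sum_congr rfl
    intro i hi
    rw [Nat.mod_eq_of_lt (mem_range.1 hi)]
  have Wadd : ∀ j, W (j + k) = W j + (S : ZMod n) := by
    intro j
    induction j with
    | zero => rw [zero_add, Wk]; simp [W]
    | succ j ih =>
      rw [show j + 1 + k = (j + k) + 1 by ring, Wsucc, ih, Wsucc, Nat.add_mod_right]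
      ring
  have Waddq : ∀ j q : ℕ, W (j + q * k) = W j + (q : ZMod n) * (S : ZMod n) := by
    intro j q
    induction q with
    | zero => simp
    | succ q ih =>
      rw [show j + (q + 1) * k = (j + q * k) + k by ring, Wadd, ih]
      push_cast; ring
  have Wper : Function.Periodic W (n * (n - 1) / 2) := by
    intro j
    rw [hm, Waddq]
    simp
  have Wmod : ∀ j, W (j % (n * (n - 1) / 2)) = W j := fun j => Wper.map_mod_nat j
  -- transfer to `Fin n`
  let e : ZMod n ≃ Fin n := (ZMod.finEquiv n).symm.toEquiv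
  let v : ZMod (n * (n - 1) / 2) → Fin n := fun i => e (W i.val)
  have vcast : ∀ j : ℕ, v (j : ZMod (n * (n - 1) / 2)) = e (W j) := by
    intro j
    show e (W (ZMod.val (j : ZMod (n * (n - 1) / 2)))) = e (W j)
    rw [ZMod.val_natCast, Wmod]
  -- units
  have hunit : ((c : ℤ) : ZMod n) * (S : ZMod n) = 1 := by
    have h0 : ((c * S - 1 : ℤ) : ZMod n) = 0 := by
      rw [ZMod.intCast_zmod_eq_zero_iff_dvd]
      have : ((n : ℕ) : ℤ) = 2 * k + 1 := by rw [hn]; push_cast; ring
      rw [this]; exact H3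
    push_cast at h0
    exact sub_eq_zero.1 h0
  -- locating the index with residue r and given value
  have locate : ∀ (r : ℕ) (a : ZMod n), ∃ i : ℕ, i % k = r % k ∧ W i = a := by
    intro r a
    refine ⟨r + (((c : ZMod n) * (a - W r)).val) * k, by simp, ?_⟩
    rw [Waddq, ZMod.natCast_zmod_val]
    linear_combination (a - W r) * hunit
  -- representing nonzero residues
  have hrep : ∀ x : ZMod n, x ≠ 0 → ∃ y : ℕ, 1 ≤ y ∧ y ≤ k ∧
      (x = ((y : ℤ) : ZMod n) ∨ x = -((y : ℤ) : ZMod n)) := by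
    intro x hx
    by_cases hle : x.val ≤ k
    · refine ⟨x.val, ?_, hle, Or.inl ?_⟩
      · have : x.val ≠ 0 := by rwa [Ne, ZMod.val_eq_zero]
        omega
      · simp
    · have hlt := ZMod.val_lt x
      refine ⟨n - x.val, by omega, by omega, Or.inr ?_⟩
      rw [Int.cast_natCast, Nat.cast_sub hlt.le]
      simp
  have hdiff1 : ∀ x : ZMod n, x ≠ 0 → ∃ r, r < k ∧
      (((d r : ℤ) : ZMod n) = x ∨ ((d r : ℤ) : ZMod n) = -x) := by
    intro x hx
    obtain ⟨y, hy1, hy2, hxy⟩ := hrep x hx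
    obtain ⟨r, hr, hd⟩ := H1 y hy1 hy2
    refine ⟨r, hr, ?_⟩
    rcases hd with hd | hd <;> rcases hxy with hxy | hxy <;> rw [hd, hxy] <;> simp
  have nzero : ((2 * k + 1 : ℤ) : ZMod n) = 0 := by
    have : (2 * k + 1 : ℤ) = ((n : ℕ) : ℤ) := by rw [hn]; push_cast; ring
    rw [this]; simp
  have hdiff2 : ∀ x : ZMod n, x ≠ 0 → ∃ r, r < k ∧
      (((d r : ℤ) : ZMod n) + ((d ((r + 1) % k) : ℤ) : ZMod n) = x ∨
        ((d r : ℤ) : ZMod n) + ((d ((r + 1) % k) : ℤ) : ZMod n) = -x) := by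
    intro x hx
    obtain ⟨y, hy1, hy2, hxy⟩ := hrep x hx
    -- find t
    obtain ⟨t, ht, hty⟩ : ∃ t : ℕ, t < k ∧
        ((y : ℤ) = 2 * t + 1 ∨ (y : ℤ) = (2 * k + 1) - (2 * t + 1)) := by
      rcases Nat.even_or_odd' y with ⟨s, hs | hs⟩
      · exact ⟨k - s, by omega, by omega⟩
      · exact ⟨s, by omega, by omega⟩
    obtain ⟨i, j, hij, hsum⟩ := H2 t ht
    have hik : i < k := by omega
    have hj : (i + 1) % k = j := by
      rcases hij with ⟨h, rfl⟩ | ⟨h, rfl⟩
      · exact Nat.mod_eq_of_lt h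
      · rw [h]; exact Nat.mod_self k
    refine ⟨i, hik, ?_⟩
    rw [hj]
    have hcast : ((d i : ℤ) : ZMod n) + ((d j : ℤ) : ZMod n) = ((d i + d j : ℤ) : ZMod n) := by
      push_cast; ring
    rw [hcast]
    have hy' : ((y : ℤ) : ZMod n) = ((2 * t + 1 : ℤ) : ZMod n) ∨
        ((y : ℤ) : ZMod n) = -((2 * t + 1 : ℤ) : ZMod n) := by
      rcases hty with h | h
      · left; rw [h]
      · right; rw [h, Int.cast_sub, nzero, zero_sub]
    have hs' : ((d i + d j : ℤ) : ZMod n) = ((2 * t + 1 : ℤ) : ZMod n) ∨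
        ((d i + d j : ℤ) : ZMod n) = -((2 * t + 1 : ℤ) : ZMod n) := by
      rcases hsum with h | h | h | h
      · left; rw [h]
      · right; rw [h, Int.cast_neg]
      · right; rw [h, Int.cast_sub, nzero, zero_sub]
      · left; rw [h, Int.cast_sub, nzero, sub_zero]
    rcases hs' with h5 | h5 <;> rcases hy' with h6 | h6 <;> rcases hxy with h7 | h7 <;>
      rw [h5, h7, h6] <;> simp
  -- coverage at distance one
  have cov1 : ∀ a b : Fin n, a ≠ b → ∃ i, s(v i, v (i + 1)) = s(a, b) := by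
    intro a b hab
    obtain ⟨a', rfl⟩ := e.surjective a
    obtain ⟨b', rfl⟩ := e.surjective b
    have hab' : a' ≠ b' := fun h => hab (by rw [h])
    obtain ⟨r, hr, hd⟩ := hdiff1 (b' - a') (sub_ne_zero.2 hab'.symm)
    rcases hd with hd | hd
    · obtain ⟨i, hi, hWi⟩ := locate r a'
      refine ⟨(i : ZMod (n * (n - 1) / 2)), ?_⟩
      have h1 : v ((i : ZMod (n * (n - 1) / 2)) + 1) = e (W (i + 1)) := by
        rw [← vcast]; push_cast; rfl
      rw [vcast, h1, Wsucc, hWi, hi, Nat.mod_eq_of_lt hr, hd]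
      congr 2
      ring_nf
    · obtain ⟨i, hi, hWi⟩ := locate r b'
      refine ⟨(i : ZMod (n * (n - 1) / 2)), ?_⟩
      have h1 : v ((i : ZMod (n * (n - 1) / 2)) + 1) = e (W (i + 1)) := by
        rw [← vcast]; push_cast; rfl
      rw [vcast, h1, Wsucc, hWi, hi, Nat.mod_eq_of_lt hr, hd, Sym2.eq_swap]
      congr 2
      ring_nf
  have cov2 : ∀ a b : Fin n, a ≠ b → ∃ i, s(v i, v (i + 2)) = s(a, b) := by
    intro a b hab
    obtain ⟨a', rfl⟩ := e.surjective a
    obtain ⟨b', rfl⟩ := e.surjective b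
    have hab' : a' ≠ b' := fun h => hab (by rw [h])
    obtain ⟨r, hr, hd⟩ := hdiff2 (b' - a') (sub_ne_zero.2 hab'.symm)
    have hmod : ∀ i : ℕ, i % k = r % k → (i + 1) % k = (r + 1) % k := by
      intro i hi
      rw [Nat.add_mod, hi, ← Nat.add_mod]
    rcases hd with hd | hd
    · obtain ⟨i, hi, hWi⟩ := locate r a'
      refine ⟨(i : ZMod (n * (n - 1) / 2)), ?_⟩
      have h1 : v ((i : ZMod (n * (n - 1) / 2)) + 2) = e (W (i + 2)) := by
        rw [← vcast]; push_cast; rfl
      rw [vcast, h1, show i + 2 = i + 1 + 1 from rfl, Wsucc, Wsucc, hWi, hmod i hi, hi,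
        Nat.mod_eq_of_lt hr, add_assoc, hd]
      congr 2
      ring_nf
    · obtain ⟨i, hi, hWi⟩ := locate r b'
      refine ⟨(i : ZMod (n * (n - 1) / 2)), ?_⟩
      have h1 : v ((i : ZMod (n * (n - 1) / 2)) + 2) = e (W (i + 2)) := by
        rw [← vcast]; push_cast; rfl
      rw [vcast, h1, show i + 2 = i + 1 + 1 from rfl, Wsucc, Wsucc, hWi, hmod i hi, hi,
        Nat.mod_eq_of_lt hr, add_assoc, hd, Sym2.eq_swap]
      congr 2
      ring_nf
  obtain ⟨h1, h2⟩ := unique_of_covers hmpos v 1 cov1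
  obtain ⟨h3, h4⟩ := unique_of_covers hmpos v 2 cov2
  exact exists_of_twoPerfect v h1 h2 h3 h4

end Pool.Agent.Helper70_Kotzig
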