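import Mathlib

namespace Pool.Agent.Helper70_Kotzig

/-- `op` is a P-groupoid operation on `V`: (i) `a·a = a`; (ii) `a ≠ b` implies `a·b ≠ a` and
`a·b ≠ b`; (iii) `a·b = c` if and only if `c·b = a`. -/
structure IsPGroupoid {V : Type*} (op : V → V → V) : Prop where
  idem : ∀ a, op a a = a
  ne : ∀ a b, a ≠ b → op a b ≠ a ∧ op a b ≠ b
  symm : ∀ a b c, op a b = c ↔ op c b = a

/-- `op` is a quasigroup operation: for all `a`, `b` each of the equations `a·x = b` and
`y·a = b` has exactly one solution. -/
def IsQuasigroup {V : Type*} (op : V → V → V) : Prop :=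
  ∀ a b, (∃! x, op a x = b) ∧ (∃! y, op y a = b)

/-- The operation `op` on an `n`-element set is Eulerian: the partition of the edges of the
complete graph `K_n` it defines is one closed walk, i.e. there is a cyclic sequence
`v_i` (`i` modulo `m = n(n-1)/2`) of vertices, consecutive ones being distinct, with
`v_i · v_{i+1} = v_{i+2}` for every `i` and such that every edge `{a, b}` of `K_n` equals
`{v_i, v_{i+1}}` for exactly one `i`. -/
def IsEulerian {n : ℕ} (op : Fin n → Fin n → Fin n) : Prop :=
  ∃ v : ZMod (n * (n - 1) / 2) → Fin n,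
    (∀ i, v i ≠ v (i + 1)) ∧
    (∀ i, op (v i) (v (i + 1)) = v (i + 2)) ∧
    ∀ a b : Fin n, a ≠ b → ∃! i, s(v i, v (i + 1)) = s(a, b)

end Pool.Agent.Helper70_Kotzig
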