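import Pool.Agent.Helper70_Kotzig.Cyclic

namespace Pool.Agent.Helper70_Kotzig

open Finset

/-- Twice the sum of an arithmetic progression. -/
theorem two_mul_sum_ap (a b : ℤ) (w : ℕ) :
    2 * ∑ j ∈ range w, (a + b * j) = 2 * a * w + b * w * (w - 1) := by
  induction w with
  | zero => simp
  | succ w ih => rw [sum_range_succ, mul_add, ih]; push_cast; ring

/-- `n = 8u+1`, `u ≥ 2`: the sequence `1..u-1, 3u..4u, 2u-1..u+1, -u, 3u-1..2u`. -/
theorem family1 (u : ℕ) (hu : 2 ≤ u) :
    ∃ op : Fin (2 * (4 * u) + 1) → Fin (2 * (4 * u) + 1) → Fin (2 * (4 * u) + 1),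
      IsPGroupoid op ∧ IsQuasigroup op ∧ IsEulerian op := by
  let d : ℕ → ℤ := fun i =>
    if i + 1 < u then i + 1
    else if i < 2 * u then i + 2 * u + 1
    else if i + 1 < 3 * u then 4 * u - 1 - i
    else if i < 3 * u then -u
    else 6 * u - 1 - i
  have b0 : ∀ i : ℕ, i + 1 < u → d i = i + 1 := by
    intro i h; simp only [d]; split_ifs <;> omega
  have b1 : ∀ i : ℕ, u ≤ i + 1 → i < 2 * u → d i = i + 2 * u + 1 := by
    intro i h h'; simp only [d]; split_ifs <;> omega
  have b2 : ∀ i : ℕ, 2 * u ≤ i → i + 1 < 3 * u → d i = 4 * u - 1 - i := by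
    intro i h h'; simp only [d]; split_ifs <;> omega
  have b3 : ∀ i : ℕ, i + 1 = 3 * u → d i = -u := by
    intro i h; simp only [d]; split_ifs <;> omega
  have b4 : ∀ i : ℕ, 3 * u ≤ i → d i = 6 * u - 1 - i := by
    intro i h; simp only [d]; split_ifs <;> omega
  refine exists_of_cyclic (4 * u) (by omega) d ?_ ?_ 8 ?_
  · intro x h1 h2
    rcases lt_or_ge x u with h | h
    · exact ⟨x - 1, by omega, by rw [b0 _ (by omega)]; omega⟩
    rcases lt_or_ge x (u + 1) with h | h
    · exact ⟨3 * u - 1, by omega, by rw [b3 _ (by omega)]; omega⟩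
    rcases lt_or_ge x (2 * u) with h | h
    · exact ⟨4 * u - 1 - x, by omega, by rw [b2 _ (by omega) (by omega)]; omega⟩
    rcases lt_or_ge x (3 * u) with h | h
    · exact ⟨6 * u - 1 - x, by omega, by rw [b4 _ (by omega)]; omega⟩
    · exact ⟨x - 2 * u - 1, by omega, by rw [b1 _ (by omega) (by omega)]; omega⟩
  · intro t ht
    rcases lt_or_ge t 1 with h | h
    · exact ⟨3 * u - 2, 3 * u - 1, by omega, by
        rw [b2 _ (by omega) (by omega), b3 _ (by omega)]; omega⟩
    rcases lt_or_ge t (u - 1) with h | h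
    · exact ⟨t - 1, t, by omega, by rw [b0 _ (by omega), b0 _ (by omega)]; omega⟩
    rcases lt_or_ge t u with h | h
    · exact ⟨3 * u - 1, 3 * u, by omega, by rw [b3 _ (by omega), b4 _ (by omega)]; omega⟩
    rcases lt_or_ge t (u + 1) with h | h
    · exact ⟨4 * u - 1, 0, by omega, by rw [b4 _ (by omega), b0 _ (by omega)]; omega⟩
    rcases lt_or_ge t (2 * u - 1) with h | h
    · exact ⟨4 * u - 2 - t, 4 * u - 2 - t + 1, by omega, by
        rw [b2 _ (by omega) (by omega), b2 _ (by omega) (by omega)]; omega⟩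
    rcases lt_or_ge t (2 * u) with h | h
    · exact ⟨u - 2, u - 1, by omega, by
        rw [b0 _ (by omega), b1 _ (by omega) (by omega)]; omega⟩
    rcases lt_or_ge t (3 * u - 1) with h | h
    · exact ⟨6 * u - 2 - t, 6 * u - 2 - t + 1, by omega, by
        rw [b4 _ (by omega), b4 _ (by omega)]; omega⟩
    rcases lt_or_ge t (3 * u) with h | h
    · exact ⟨2 * u - 1, 2 * u, by omega, by
        rw [b1 _ (by omega) (by omega), b2 _ (by omega) (by omega)]; omega⟩
    · exact ⟨t - 2 * u - 1, t - 2 * u, by omega, by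
        rw [b1 _ (by omega) (by omega), b1 _ (by omega) (by omega)]; omega⟩
  · obtain ⟨w, rfl⟩ : ∃ w, u = w + 1 := ⟨u - 1, by omega⟩
    have hk : 4 * (w + 1) = w + (w + 2) + w + 1 + (w + 1) := by ring
    have e1 : ∑ i ∈ range w, d i = ∑ i ∈ range w, ((1 : ℤ) + 1 * i) := by
      apply sum_congr rfl; intro i hi; rw [mem_range] at hi
      rw [b0 _ (by omega)]; omega
    have e2 : ∑ i ∈ range (w + 2), d (w + i) = ∑ i ∈ range (w + 2), ((3 * w + 3 : ℤ) + 1 * i) := by
      apply sum_congr rfl; intro i hi; rw [mem_range] at hi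
      rw [b1 _ (by omega) (by omega)]; push_cast; ring
    have e3 : ∑ i ∈ range w, d (w + (w + 2) + i) = ∑ i ∈ range w, ((2 * w + 1 : ℤ) + (-1) * i) := by
      apply sum_congr rfl; intro i hi; rw [mem_range] at hi
      rw [b2 _ (by omega) (by omega)]; push_cast; ring
    have e4 : d (w + (w + 2) + w) = -(w + 1 : ℤ) := by
      rw [b3 _ (by omega)]; push_cast; ring
    have e5 : ∑ i ∈ range (w + 1), d (w + (w + 2) + w + 1 + i) =
        ∑ i ∈ range (w + 1), ((3 * w + 2 : ℤ) + (-1) * i) := by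
      apply sum_congr rfl; intro i hi; rw [mem_range] at hi
      rw [b4 _ (by omega)]; push_cast; ring
    have hsum : 2 * ∑ i ∈ range (4 * (w + 1)), d i = 16 * (w + 1) ^ 2 := by
      rw [hk, sum_range_add, sum_range_succ, sum_range_add, sum_range_add, e1, e2, e3, e4, e5]
      simp only [mul_add, two_mul_sum_ap]
      push_cast; ring
    refine ⟨8 * w + 7, ?_⟩
    push_cast
    linear_combination 4 * hsum

/-- `n = 8u+3`, `u ≥ 2`: the sequence `1..u, -(3u+1), 3u..2u+2, 4u+1..3u+2, u+1..2u+1`. -/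
theorem family3 (u : ℕ) (hu : 2 ≤ u) :
    ∃ op : Fin (2 * (4 * u + 1) + 1) → Fin (2 * (4 * u + 1) + 1) → Fin (2 * (4 * u + 1) + 1),
      IsPGroupoid op ∧ IsQuasigroup op ∧ IsEulerian op := by
  let d : ℕ → ℤ := fun i =>
    if i < u then i + 1
    else if i < u + 1 then -(3 * u + 1)
    else if i < 2 * u then 4 * u + 1 - i
    else if i < 3 * u then 6 * u + 1 - i
    else i + 1 - 2 * u
  have b0 : ∀ i : ℕ, i < u → d i = i + 1 := by
    intro i h; simp only [d]; split_ifs <;> omega
  have b1 : ∀ i : ℕ, i = u → d i = -(3 * u + 1) := by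
    intro i h; simp only [d]; split_ifs <;> omega
  have b2 : ∀ i : ℕ, u + 1 ≤ i → i < 2 * u → d i = 4 * u + 1 - i := by
    intro i h h'; simp only [d]; split_ifs <;> omega
  have b3 : ∀ i : ℕ, 2 * u ≤ i → i < 3 * u → d i = 6 * u + 1 - i := by
    intro i h h'; simp only [d]; split_ifs <;> omega
  have b4 : ∀ i : ℕ, 3 * u ≤ i → d i = i + 1 - 2 * u := by
    intro i h; simp only [d]; split_ifs <;> omega
  refine exists_of_cyclic (4 * u + 1) (by omega) d ?_ ?_ 8 ?_
  · intro x h1 h2
    rcases lt_or_ge x (u + 1) with h | h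
    · exact ⟨x - 1, by omega, by rw [b0 _ (by omega)]; omega⟩
    rcases lt_or_ge x (2 * u + 2) with h | h
    · exact ⟨x + 2 * u - 1, by omega, by rw [b4 _ (by omega)]; omega⟩
    rcases lt_or_ge x (3 * u + 1) with h | h
    · exact ⟨4 * u + 1 - x, by omega, by rw [b2 _ (by omega) (by omega)]; omega⟩
    rcases lt_or_ge x (3 * u + 2) with h | h
    · exact ⟨u, by omega, by rw [b1 _ (by omega)]; omega⟩
    · exact ⟨6 * u + 1 - x, by omega, by rw [b3 _ (by omega) (by omega)]; omega⟩
  · intro t ht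
    rcases lt_or_ge t 1 with h | h
    · exact ⟨u, u + 1, by omega, by rw [b1 _ (by omega), b2 _ (by omega) (by omega)]; omega⟩
    rcases lt_or_ge t u with h | h
    · exact ⟨t - 1, t, by omega, by rw [b0 _ (by omega), b0 _ (by omega)]; omega⟩
    rcases lt_or_ge t (u + 1) with h | h
    · exact ⟨u - 1, u, by omega, by rw [b0 _ (by omega), b1 _ (by omega)]; omega⟩
    rcases lt_or_ge t (2 * u + 1) with h | h
    · exact ⟨t + 2 * u - 1, t + 2 * u, by omega, by
        rw [b4 _ (by omega), b4 _ (by omega)]; omega⟩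
    rcases lt_or_ge t (2 * u + 2) with h | h
    · exact ⟨3 * u - 1, 3 * u, by omega, by
        rw [b3 _ (by omega) (by omega), b4 _ (by omega)]; omega⟩
    rcases lt_or_ge t (3 * u) with h | h
    · exact ⟨4 * u - t, 4 * u - t + 1, by omega, by
        rw [b2 _ (by omega) (by omega), b2 _ (by omega) (by omega)]; omega⟩
    rcases lt_or_ge t (3 * u + 1) with h | h
    · exact ⟨4 * u, 0, by omega, by rw [b4 _ (by omega), b0 _ (by omega)]; omega⟩
    rcases lt_or_ge t (3 * u + 2) with h | h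
    · exact ⟨2 * u - 1, 2 * u, by omega, by
        rw [b2 _ (by omega) (by omega), b3 _ (by omega) (by omega)]; omega⟩
    · exact ⟨6 * u - t, 6 * u - t + 1, by omega, by
        rw [b3 _ (by omega) (by omega), b3 _ (by omega) (by omega)]; omega⟩
  · obtain ⟨w, rfl⟩ : ∃ w, u = w + 1 := ⟨u - 1, by omega⟩
    have hk : 4 * (w + 1) + 1 = (w + 1) + 1 + w + (w + 1) + (w + 2) := by ring
    have e1 : ∑ i ∈ range (w + 1), d i = ∑ i ∈ range (w + 1), ((1 : ℤ) + 1 * i) := by
      apply sum_congr rfl; intro i hi; rw [mem_range] at hi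
      rw [b0 _ (by omega)]; omega
    have e2 : d (w + 1) = -(3 * w + 4 : ℤ) := by
      rw [b1 _ (by omega)]; push_cast; ring
    have e3 : ∑ i ∈ range w, d (w + 1 + 1 + i) = ∑ i ∈ range w, ((3 * w + 3 : ℤ) + (-1) * i) := by
      apply sum_congr rfl; intro i hi; rw [mem_range] at hi
      rw [b2 _ (by omega) (by omega)]; push_cast; ring
    have e4 : ∑ i ∈ range (w + 1), d (w + 1 + 1 + w + i) =
        ∑ i ∈ range (w + 1), ((4 * w + 5 : ℤ) + (-1) * i) := by
      apply sum_congr rfl; intro i hi; rw [mem_range] at hi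
      rw [b3 _ (by omega) (by omega)]; push_cast; ring
    have e5 : ∑ i ∈ range (w + 2), d (w + 1 + 1 + w + (w + 1) + i) =
        ∑ i ∈ range (w + 2), ((w + 2 : ℤ) + 1 * i) := by
      apply sum_congr rfl; intro i hi; rw [mem_range] at hi
      rw [b4 _ (by omega)]; push_cast; ring
    have hsum : 2 * ∑ i ∈ range (4 * (w + 1) + 1), d i = 16 * (w + 1) ^ 2 - 2 := by
      rw [hk, sum_range_add, sum_range_add, sum_range_add, sum_range_succ, e1, e2, e3, e4, e5]
      simp only [mul_add, two_mul_sum_ap]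
      push_cast; ring
    refine ⟨8 * w + 5, ?_⟩
    push_cast
    linear_combination 4 * hsum

end Pool.Agent.Helper70_Kotzig
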