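import Pool.Agent.Helper70_Kotzig.Families

namespace Pool.Agent.Helper70_Kotzig

open Finset

/-- `n = 8u+5`, `u ≥ 1`: the sequence
`1..u, -(3u+2), 3u+1..2u+2, 2u..u+1, 3u+3..4u+2, -(2u+1)`. -/
theorem family5 (u : ℕ) (hu : 1 ≤ u) :
    ∃ op : Fin (2 * (4 * u + 2) + 1) → Fin (2 * (4 * u + 2) + 1) → Fin (2 * (4 * u + 2) + 1),
      IsPGroupoid op ∧ IsQuasigroup op ∧ IsEulerian op := by
  let d : ℕ → ℤ := fun i =>
    if i < u then i + 1
    else if i < u + 1 then -(3 * u + 2)
    else if i < 2 * u + 1 then 4 * u + 2 - i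
    else if i < 3 * u + 1 then 4 * u + 1 - i
    else if i < 4 * u + 1 then i + 2
    else -(2 * u + 1)
  have b0 : ∀ i : ℕ, i < u → d i = i + 1 := by
    intro i h; simp only [d]; split_ifs <;> omega
  have b1 : ∀ i : ℕ, i = u → d i = -(3 * u + 2) := by
    intro i h; simp only [d]; split_ifs <;> omega
  have b2 : ∀ i : ℕ, u + 1 ≤ i → i < 2 * u + 1 → d i = 4 * u + 2 - i := by
    intro i h h'; simp only [d]; split_ifs <;> omega
  have b3 : ∀ i : ℕ, 2 * u + 1 ≤ i → i < 3 * u + 1 → d i = 4 * u + 1 - i := by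
    intro i h h'; simp only [d]; split_ifs <;> omega
  have b4 : ∀ i : ℕ, 3 * u + 1 ≤ i → i < 4 * u + 1 → d i = i + 2 := by
    intro i h h'; simp only [d]; split_ifs <;> omega
  have b5 : ∀ i : ℕ, 4 * u + 1 ≤ i → d i = -(2 * u + 1) := by
    intro i h; simp only [d]; split_ifs <;> omega
  refine exists_of_cyclic (4 * u + 2) (by omega) d ?_ ?_ 8 ?_
  · intro x h1 h2
    rcases lt_or_ge x (u + 1) with h | h
    · exact ⟨x - 1, by omega, by rw [b0 _ (by omega)]; omega⟩
    rcases lt_or_ge x (2 * u + 1) with h | h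
    · exact ⟨4 * u + 1 - x, by omega, by rw [b3 _ (by omega) (by omega)]; omega⟩
    rcases lt_or_ge x (2 * u + 2) with h | h
    · exact ⟨4 * u + 1, by omega, by rw [b5 _ (by omega)]; omega⟩
    rcases lt_or_ge x (3 * u + 2) with h | h
    · exact ⟨4 * u + 2 - x, by omega, by rw [b2 _ (by omega) (by omega)]; omega⟩
    rcases lt_or_ge x (3 * u + 3) with h | h
    · exact ⟨u, by omega, by rw [b1 _ (by omega)]; omega⟩
    · exact ⟨x - 2, by omega, by rw [b4 _ (by omega) (by omega)]; omega⟩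
  · intro t ht
    rcases lt_or_ge t 1 with h | h
    · exact ⟨u, u + 1, by omega, by rw [b1 _ (by omega), b2 _ (by omega) (by omega)]; omega⟩
    rcases lt_or_ge t u with h | h
    · exact ⟨t - 1, t, by omega, by rw [b0 _ (by omega), b0 _ (by omega)]; omega⟩
    rcases lt_or_ge t (u + 1) with h | h
    · exact ⟨4 * u, 4 * u + 1, by omega, by
        rw [b4 _ (by omega) (by omega), b5 _ (by omega)]; omega⟩
    rcases lt_or_ge t (2 * u) with h | h
    · exact ⟨4 * u - t, 4 * u - t + 1, by omega, by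
        rw [b3 _ (by omega) (by omega), b3 _ (by omega) (by omega)]; omega⟩
    rcases lt_or_ge t (2 * u + 1) with h | h
    · exact ⟨3 * u, 3 * u + 1, by omega, by
        rw [b3 _ (by omega) (by omega), b4 _ (by omega) (by omega)]; omega⟩
    rcases lt_or_ge t (2 * u + 2) with h | h
    · exact ⟨2 * u, 2 * u + 1, by omega, by
        rw [b2 _ (by omega) (by omega), b3 _ (by omega) (by omega)]; omega⟩
    rcases lt_or_ge t (3 * u + 1) with h | h
    · exact ⟨4 * u + 1 - t, 4 * u + 1 - t + 1, by omega, by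
        rw [b2 _ (by omega) (by omega), b2 _ (by omega) (by omega)]; omega⟩
    rcases lt_or_ge t (3 * u + 2) with h | h
    · exact ⟨u - 1, u, by omega, by rw [b0 _ (by omega), b1 _ (by omega)]; omega⟩
    rcases lt_or_ge t (3 * u + 3) with h | h
    · exact ⟨4 * u + 1, 0, by omega, by rw [b5 _ (by omega), b0 _ (by omega)]; omega⟩
    · exact ⟨t - 2, t - 2 + 1, by omega, by
        rw [b4 _ (by omega) (by omega), b4 _ (by omega) (by omega)]; omega⟩
  · have hk : 4 * u + 2 = u + 1 + u + u + u + 1 := by ring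
    have e1 : ∑ i ∈ range u, d i = ∑ i ∈ range u, ((1 : ℤ) + 1 * i) := by
      apply sum_congr rfl; intro i hi; rw [mem_range] at hi
      rw [b0 _ (by omega)]; omega
    have e2 : d u = -(3 * u + 2 : ℤ) := b1 _ rfl
    have e3 : ∑ i ∈ range u, d (u + 1 + i) = ∑ i ∈ range u, ((3 * u + 1 : ℤ) + (-1) * i) := by
      apply sum_congr rfl; intro i hi; rw [mem_range] at hi
      rw [b2 _ (by omega) (by omega)]; push_cast; ring
    have e4 : ∑ i ∈ range u, d (u + 1 + u + i) = ∑ i ∈ range u, ((2 * u : ℤ) + (-1) * i) := by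
      apply sum_congr rfl; intro i hi; rw [mem_range] at hi
      rw [b3 _ (by omega) (by omega)]; push_cast; ring
    have e5 : ∑ i ∈ range u, d (u + 1 + u + u + i) = ∑ i ∈ range u, ((3 * u + 3 : ℤ) + 1 * i) := by
      apply sum_congr rfl; intro i hi; rw [mem_range] at hi
      rw [b4 _ (by omega) (by omega)]; push_cast; ring
    have e6 : d (u + 1 + u + u + u) = -(2 * u + 1 : ℤ) := b5 _ (by omega)
    have hsum : 2 * ∑ i ∈ range (4 * u + 2), d i = 16 * u ^ 2 - 6 := by
      rw [hk, sum_range_succ, sum_range_add, sum_range_add, sum_range_add, sum_range_succ,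
        e1, e2, e3, e4, e5, e6]
      simp only [mul_add, two_mul_sum_ap]
      push_cast; ring
    refine ⟨8 * u - 5, ?_⟩
    push_cast
    linear_combination 4 * hsum

/-- `n = 8u+7`, `u ≥ 1`: the sequence
`1..u, -(3u+3)..-(2u+3), 4u+3..3u+4, u+1, -(u+2)..-(2u+2)`. -/
theorem family7 (u : ℕ) (hu : 1 ≤ u) :
    ∃ op : Fin (2 * (4 * u + 3) + 1) → Fin (2 * (4 * u + 3) + 1) → Fin (2 * (4 * u + 3) + 1),
      IsPGroupoid op ∧ IsQuasigroup op ∧ IsEulerian op := by
  let d : ℕ → ℤ := fun i =>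
    if i < u then i + 1
    else if i < 2 * u + 1 then i - (4 * u + 3)
    else if i < 3 * u + 1 then 6 * u + 4 - i
    else if i < 3 * u + 2 then u + 1
    else 2 * u - i
  have b0 : ∀ i : ℕ, i < u → d i = i + 1 := by
    intro i h; simp only [d]; split_ifs <;> omega
  have b1 : ∀ i : ℕ, u ≤ i → i < 2 * u + 1 → d i = i - (4 * u + 3) := by
    intro i h h'; simp only [d]; split_ifs <;> omega
  have b2 : ∀ i : ℕ, 2 * u + 1 ≤ i → i < 3 * u + 1 → d i = 6 * u + 4 - i := by
    intro i h h'; simp only [d]; split_ifs <;> omega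
  have b3 : ∀ i : ℕ, i = 3 * u + 1 → d i = u + 1 := by
    intro i h; simp only [d]; split_ifs <;> omega
  have b4 : ∀ i : ℕ, 3 * u + 2 ≤ i → d i = 2 * u - i := by
    intro i h; simp only [d]; split_ifs <;> omega
  refine exists_of_cyclic (4 * u + 3) (by omega) d ?_ ?_ (-2) ?_
  · intro x h1 h2
    rcases lt_or_ge x (u + 1) with h | h
    · exact ⟨x - 1, by omega, by rw [b0 _ (by omega)]; omega⟩
    rcases lt_or_ge x (u + 2) with h | h
    · exact ⟨3 * u + 1, by omega, by rw [b3 _ (by omega)]; omega⟩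
    rcases lt_or_ge x (2 * u + 3) with h | h
    · exact ⟨2 * u + x, by omega, by rw [b4 _ (by omega)]; omega⟩
    rcases lt_or_ge x (3 * u + 4) with h | h
    · exact ⟨4 * u + 3 - x, by omega, by rw [b1 _ (by omega) (by omega)]; omega⟩
    · exact ⟨6 * u + 4 - x, by omega, by rw [b2 _ (by omega) (by omega)]; omega⟩
  · intro t ht
    rcases lt_or_ge t 1 with h | h
    · exact ⟨3 * u + 1, 3 * u + 2, by omega, by rw [b3 _ (by omega), b4 _ (by omega)]; omega⟩
    rcases lt_or_ge t u with h | h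
    · exact ⟨t - 1, t, by omega, by rw [b0 _ (by omega), b0 _ (by omega)]; omega⟩
    rcases lt_or_ge t (u + 1) with h | h
    · exact ⟨4 * u + 2, 0, by omega, by rw [b4 _ (by omega), b0 _ (by omega)]; omega⟩
    rcases lt_or_ge t (u + 2) with h | h
    · exact ⟨u - 1, u, by omega, by
        rw [b0 _ (by omega), b1 _ (by omega) (by omega)]; omega⟩
    rcases lt_or_ge t (2 * u + 2) with h | h
    · exact ⟨2 * u + t, 2 * u + t + 1, by omega, by
        rw [b4 _ (by omega), b4 _ (by omega)]; omega⟩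
    rcases lt_or_ge t (2 * u + 3) with h | h
    · exact ⟨3 * u, 3 * u + 1, by omega, by
        rw [b2 _ (by omega) (by omega), b3 _ (by omega)]; omega⟩
    rcases lt_or_ge t (3 * u + 3) with h | h
    · exact ⟨4 * u + 2 - t, 4 * u + 2 - t + 1, by omega, by
        rw [b1 _ (by omega) (by omega), b1 _ (by omega) (by omega)]; omega⟩
    rcases lt_or_ge t (3 * u + 4) with h | h
    · exact ⟨2 * u, 2 * u + 1, by omega, by
        rw [b1 _ (by omega) (by omega), b2 _ (by omega) (by omega)]; omega⟩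
    · exact ⟨6 * u + 3 - t, 6 * u + 3 - t + 1, by omega, by
        rw [b2 _ (by omega) (by omega), b2 _ (by omega) (by omega)]; omega⟩
  · have hk : 4 * u + 3 = u + (u + 1) + u + 1 + (u + 1) := by ring
    have e1 : ∑ i ∈ range u, d i = ∑ i ∈ range u, ((1 : ℤ) + 1 * i) := by
      apply sum_congr rfl; intro i hi; rw [mem_range] at hi
      rw [b0 _ (by omega)]; omega
    have e2 : ∑ i ∈ range (u + 1), d (u + i) =
        ∑ i ∈ range (u + 1), ((-(3 * u + 3) : ℤ) + 1 * i) := by
      apply sum_congr rfl; intro i hi; rw [mem_range] at hi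
      rw [b1 _ (by omega) (by omega)]; push_cast; ring
    have e3 : ∑ i ∈ range u, d (u + (u + 1) + i) = ∑ i ∈ range u, ((4 * u + 3 : ℤ) + (-1) * i) := by
      apply sum_congr rfl; intro i hi; rw [mem_range] at hi
      rw [b2 _ (by omega) (by omega)]; push_cast; ring
    have e4 : d (u + (u + 1) + u) = (u + 1 : ℤ) := b3 _ (by omega)
    have e5 : ∑ i ∈ range (u + 1), d (u + (u + 1) + u + 1 + i) =
        ∑ i ∈ range (u + 1), ((-(u + 2) : ℤ) + (-1) * i) := by
      apply sum_congr rfl; intro i hi; rw [mem_range] at hi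
      rw [b4 _ (by omega)]; push_cast; ring
    have hsum : 2 * ∑ i ∈ range (4 * u + 3), d i = -8 * (u + 1) := by
      rw [hk, sum_range_add, sum_range_succ, sum_range_add, sum_range_add, e1, e2, e3, e4, e5]
      simp only [mul_add, two_mul_sum_ap]
      push_cast; ring
    refine ⟨1, ?_⟩
    push_cast
    linear_combination -1 * hsum

/-- Order `3`. -/
theorem order3 : ∃ op : Fin (2 * 1 + 1) → Fin (2 * 1 + 1) → Fin (2 * 1 + 1),
    IsPGroupoid op ∧ IsQuasigroup op ∧ IsEulerian op := by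
  refine exists_of_cyclic 1 (by omega) (fun _ => 1) ?_ ?_ 1 ?_
  · intro x h1 h2
    exact ⟨0, by omega, by omega⟩
  · intro t ht
    exact ⟨0, 0, by omega, by omega⟩
  · simp

/-- Order `9`: the sequence `3, 4, -1, 2`. -/
theorem order9 : ∃ op : Fin (2 * 4 + 1) → Fin (2 * 4 + 1) → Fin (2 * 4 + 1),
    IsPGroupoid op ∧ IsQuasigroup op ∧ IsEulerian op := by
  let d : ℕ → ℤ := fun i =>
    if i = 0 then 3 else if i = 1 then 4 else if i = 2 then -1 else 2
  refine exists_of_cyclic 4 (by omega) d ?_ ?_ 8 ?_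
  · intro x h1 h2
    interval_cases x
    · exact ⟨2, by omega, by simp [d]⟩
    · exact ⟨3, by omega, by simp [d]⟩
    · exact ⟨0, by omega, by simp [d]⟩
    · exact ⟨1, by omega, by simp [d]⟩
  · intro t ht
    interval_cases t
    · exact ⟨2, 3, by omega, by simp [d]⟩
    · exact ⟨1, 2, by omega, by simp [d]⟩
    · exact ⟨3, 0, by omega, by simp [d]⟩
    · exact ⟨0, 1, by omega, by simp [d]⟩
  · simp [d, sum_range_succ]

/-- Order `11`: the sequence `1, 2, 3, -4, -5`. -/
theorem order11 : ∃ op : Fin (2 * 5 + 1) → Fin (2 * 5 + 1) → Fin (2 * 5 + 1),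
    IsPGroupoid op ∧ IsQuasigroup op ∧ IsEulerian op := by
  let d : ℕ → ℤ := fun i =>
    if i = 0 then 1 else if i = 1 then 2 else if i = 2 then 3 else if i = 3 then -4 else -5
  refine exists_of_cyclic 5 (by omega) d ?_ ?_ (-4) ?_
  · intro x h1 h2
    interval_cases x
    · exact ⟨0, by omega, by simp [d]⟩
    · exact ⟨1, by omega, by simp [d]⟩
    · exact ⟨2, by omega, by simp [d]⟩
    · exact ⟨3, by omega, by simp [d]⟩
    · exact ⟨4, by omega, by simp [d]⟩
  · intro t ht
    interval_cases t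
    · exact ⟨2, 3, by omega, by simp [d]⟩
    · exact ⟨0, 1, by omega, by simp [d]⟩
    · exact ⟨1, 2, by omega, by simp [d]⟩
    · exact ⟨4, 0, by omega, by simp [d]⟩
    · exact ⟨3, 4, by omega, by simp [d]⟩
  · simp [d, sum_range_succ]

end Pool.Agent.Helper70_Kotzig
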