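import Pool.Agent.Helper70_Kotzig.Cyclic

namespace Pool.Agent.Helper70_Kotzig

open Finset

/-- The closed walk of length 21 used for order 7. -/
def walk7 : Fin 21 → Fin 7 :=
  ![0, 1, 2, 0, 3, 4, 1, 5, 6, 0, 5, 3, 1, 6, 2, 4, 5, 2, 3, 6, 4]

theorem walk7_cov1 : ∀ a b : Fin 7, a ≠ b → ∃ i : Fin 21, s(walk7 i, walk7 (i + 1)) = s(a, b) := by
  decide +kernel

theorem walk7_cov2 : ∀ a b : Fin 7, a ≠ b → ∃ i : Fin 21, s(walk7 i, walk7 (i + 2)) = s(a, b) := by
  decide +kernel

/-- Order `7`. -/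
theorem order7 : ∃ op : Fin 7 → Fin 7 → Fin 7, IsPGroupoid op ∧ IsQuasigroup op ∧ IsEulerian op := by
  have hpos : 0 < 7 * (7 - 1) / 2 := by norm_num
  obtain ⟨h1, h2⟩ := unique_of_covers (n := 7) hpos walk7 1 walk7_cov1
  obtain ⟨h3, h4⟩ := unique_of_covers (n := 7) hpos walk7 2 walk7_cov2
  exact exists_of_twoPerfect (n := 7) walk7 h1 h2 h3 h4

/-- Every P-groupoid has odd order. -/
theorem odd_of_isPGroupoid {n : ℕ} (hn : 0 < n) (op : Fin n → Fin n → Fin n)
    (h : IsPGroupoid op) : Odd n := by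
  classical
  let b : Fin n := ⟨0, hn⟩
  have hinv : ∀ a, op (op a b) b = a := fun a => (h.symm a b (op a b)).1 rfl
  -- parity: the involution `a ↦ a·b` on `V \ {b}` has no fixed point
  have key : (∑ a ∈ (univ : Finset (Fin n)).erase b, (1 : ZMod 2)) = 0 := by
    refine Finset.sum_involution (fun a _ => op a b) ?_ ?_ ?_ ?_
    · intro a ha; decide
    · intro a ha _
      exact (h.ne a b (ne_of_mem_erase ha)).1
    · intro a ha
      exact mem_erase.2 ⟨(h.ne a b (ne_of_mem_erase ha)).2, mem_univ _⟩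
    · intro a ha; exact hinv a
  rw [sum_const, card_erase_of_mem (mem_univ _), card_univ, Fintype.card_fin, nsmul_eq_mul,
    mul_one] at key
  rw [ZMod.natCast_eq_zero_iff] at key
  rw [Nat.odd_iff]
  omega

/-- There is no Eulerian P-quasigroup of order `5`. -/
theorem no_order5 (op : Fin 5 → Fin 5 → Fin 5) (h : IsPGroupoid op) (hq : IsQuasigroup op)
    (he : IsEulerian op) : False := by
  classical
  obtain ⟨v, hv1, hv2, hv3⟩ := he
  -- middle elements are unique
  have mid : ∀ a x y c : Fin 5, op a x = c → op a y = c → x = y := by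
    intro a x y c hx hy
    exact (hq a c).1.unique hx hy
  -- exhausting five elements
  have five : ∀ a b c d e x : Fin 5, a ≠ b → a ≠ c → a ≠ d → a ≠ e → b ≠ c → b ≠ d → b ≠ e →
      c ≠ d → c ≠ e → d ≠ e → x = a ∨ x = b ∨ x = c ∨ x = d ∨ x = e := by
    intro a b c d e x hab hac had hae hbc hbd hbe hcd hce hde
    have hcard : ({a, b, c, d, e} : Finset (Fin 5)).card = 5 := by
      rw [card_insert_of_notMem, card_insert_of_notMem, card_insert_of_notMem,
        card_insert_of_notMem, card_singleton] <;> simp [*]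
    have huniv : ({a, b, c, d, e} : Finset (Fin 5)) = univ :=
      eq_univ_of_card _ (by rw [hcard]; rfl)
    have hx : x ∈ ({a, b, c, d, e} : Finset (Fin 5)) := by rw [huniv]; exact mem_univ _
    simpa using hx
  -- the fourth and fifth element
  have ex5 : ∀ a b c d : Fin 5, a ≠ b → a ≠ c → a ≠ d → b ≠ c → b ≠ d → c ≠ d →
      ∃ e, a ≠ e ∧ b ≠ e ∧ c ≠ e ∧ d ≠ e := by
    intro a b c d _ _ _ _ _ _
    have hcard : ({a, b, c, d} : Finset (Fin 5)).card ≤ 4 := card_le_four
    have hne : ({a, b, c, d} : Finset (Fin 5)) ≠ univ := by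
      intro hh
      rw [hh, card_univ, Fintype.card_fin] at hcard
      omega
    obtain ⟨e, he⟩ : ∃ e, e ∉ ({a, b, c, d} : Finset (Fin 5)) := by
      by_contra hcon
      push Not at hcon
      exact hne (eq_univ_iff_forall.2 hcon)
    simp only [mem_insert, mem_singleton, not_or] at he
    exact ⟨e, Ne.symm he.1, Ne.symm he.2.1, Ne.symm he.2.2.1, Ne.symm he.2.2.2⟩
  have sy : ∀ a b c : Fin 5, op a b = c → op c b = a := fun a b c => (h.symm a b c).1
  -- no triangles
  have notri : ∀ a b c : Fin 5, a ≠ b → op a b = c → op b c ≠ a := by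
    intro a b c hab hc hca
    have hac : c ≠ a := hc ▸ (h.ne a b hab).1
    have hbc : c ≠ b := hc ▸ (h.ne a b hab).2
    -- a fourth and a fifth element
    obtain ⟨d, hd⟩ : ∃ d, d ∉ ({a, b, c} : Finset (Fin 5)) := by
      by_contra hcon
      push Not at hcon
      have h3 : ({a, b, c} : Finset (Fin 5)).card ≤ 3 := card_le_three
      rw [eq_univ_iff_forall.2 hcon, card_univ, Fintype.card_fin] at h3
      omega
    simp only [mem_insert, mem_singleton, not_or] at hd
    obtain ⟨hda, hdb, hdc⟩ := hd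
    obtain ⟨e, hae, hbe, hce, hde⟩ := ex5 a b c d hab hac.symm (Ne.symm hda) hbc.symm
      (Ne.symm hdb) (Ne.symm hdc)
    -- at `b`: `d` is matched with `e`
    have h1 : op d b = e := by
      have hh := h.ne d b hdb
      rcases five a b c d e (op d b) hab hac.symm (Ne.symm hda) hae hbc.symm (Ne.symm hdb) hbe
        (Ne.symm hdc) hce hde with h5 | h5 | h5 | h5 | h5
      · exact absurd (sy _ _ _ h5) (by rw [hc]; exact Ne.symm hdc)
      · exact absurd h5 hh.2
      · exact absurd (sy _ _ _ h5) (by rw [sy _ _ _ hc]; exact Ne.symm hda)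
      · exact absurd h5 hh.1
      · exact h5
    -- at `c`: `d` is matched with `e`
    have h2 : op d c = e := by
      have hh := h.ne d c hdc
      rcases five a b c d e (op d c) hab hac.symm (Ne.symm hda) hae hbc.symm (Ne.symm hdb) hbe
        (Ne.symm hdc) hce hde with h5 | h5 | h5 | h5 | h5
      · exact absurd (sy _ _ _ h5) (by rw [sy _ _ _ hca]; exact Ne.symm hdb)
      · exact absurd (sy _ _ _ h5) (by rw [hca]; exact Ne.symm hda)
      · exact absurd h5 hh.2
      · exact absurd h5 hh.1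
      · exact h5
    exact hbc.symm (mid d b c e h1 h2)
  -- every walk closes after five steps
  have step : ∀ a b c d : Fin 5, a ≠ b → op a b = c → op b c = d →
      ∃ e, a ≠ b ∧ a ≠ c ∧ a ≠ d ∧ b ≠ c ∧ b ≠ d ∧ c ≠ d ∧ a ≠ e ∧ b ≠ e ∧ c ≠ e ∧ d ≠ e ∧
        op c d = e := by
    intro a b c d hab hc hd
    have hac : c ≠ a := hc ▸ (h.ne a b hab).1
    have hbc : c ≠ b := hc ▸ (h.ne a b hab).2
    have hbd : d ≠ b := hd ▸ (h.ne b c hbc.symm).1
    have hcd : d ≠ c := hd ▸ (h.ne b c hbc.symm).2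
    have had : d ≠ a := by rw [← hd]; exact notri a b c hab hc
    obtain ⟨e, hae, hbe, hce, hde⟩ := ex5 a b c d hab hac.symm had.symm hbc.symm hbd.symm hcd.symm
    refine ⟨e, hab, hac.symm, had.symm, hbc.symm, hbd.symm, hcd.symm, hae, hbe, hce, hde, ?_⟩
    have hh := h.ne c d hcd.symm
    rcases five a b c d e (op c d) hab hac.symm had.symm hae hbc.symm hbd.symm hbe
      hcd.symm hce hde with h5 | h5 | h5 | h5 | h5
    · -- `c·d = a`, but `c·b = a`
      exact absurd (mid c d b a h5 (sy _ _ _ hc)) hbd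
    · exact absurd h5 (notri b c d hbc.symm hd)
    · exact absurd h5 hh.1
    · exact absurd h5 hh.2
    · exact h5
  have key : ∀ a b c d e : Fin 5, a ≠ b → op a b = c → op b c = d → op c d = e →
      op d e = a ∧ op e a = b := by
    intro a b c d e hab hc hd he
    obtain ⟨e', _, hac, had, hbc, hbd, hcd, hae, hbe, hce, hde, he'⟩ := step a b c d hab hc hd
    have hee : e' = e := he'.symm.trans he
    subst hee
    obtain ⟨a', _, _, _, _, _, _, hba', hca', hda', hea', ha'⟩ := step b c d e' hbc hd he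
    have haa : a' = a := by
      rcases five a b c d e' a' hab hac had hae hbc hbd hbe hcd hce hde with h5 | h5 | h5 | h5 | h5
      · exact h5
      · exact absurd h5.symm hba'
      · exact absurd h5.symm hca'
      · exact absurd h5.symm hda'
      · exact absurd h5.symm hea'
    subst haa
    refine ⟨ha', ?_⟩
    obtain ⟨b', _, _, _, _, _, _, hcb', hdb', heb', hab', hb'⟩ := step c d e' a' hcd he ha'
    rcases five a' b c d e' b' hab hac had hae hbc hbd hbe hcd hce hde with h5 | h5 | h5 | h5 | h5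
    · exact absurd h5.symm hab'
    · rw [← h5]; exact hb'
    · exact absurd h5.symm hcb'
    · exact absurd h5.symm hdb'
    · exact absurd h5.symm heb'
  have w0 := hv2 0
  have w1 := hv2 (0 + 1)
  have w2 := hv2 (0 + 1 + 1)
  have w3 := hv2 (0 + 1 + 1 + 1)
  have w4 := hv2 (0 + 1 + 1 + 1 + 1)
  have e2 : ∀ i : ZMod (5 * (5 - 1) / 2), i + 1 + 1 = i + 2 := by intro i; ring
  rw [← e2] at w0 w1 w2 w3 w4
  obtain ⟨k1, k2⟩ := key _ _ _ _ _ (hv1 0) w0 w1 w2
  rw [k1] at w3
  rw [← w3, k2] at w4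
  -- the edge `{v 0, v 1}` is used twice
  obtain ⟨i, _, hi⟩ := hv3 (v 0) (v (0 + 1)) (hv1 0)
  have i0 : (0 : ZMod (5 * (5 - 1) / 2)) = i := hi 0 rfl
  have i5 : (0 + 1 + 1 + 1 + 1 + 1 : ZMod (5 * (5 - 1) / 2)) = i := by
    apply hi
    show s(v (0 + 1 + 1 + 1 + 1 + 1), v (0 + 1 + 1 + 1 + 1 + 1 + 1)) = s(v 0, v (0 + 1))
    rw [← w3, ← w4]
  have : (0 : ZMod (5 * (5 - 1) / 2)) ≠ 0 + 1 + 1 + 1 + 1 + 1 := by decide
  exact this (i0.trans i5.symm)

end Pool.Agent.Helper70_Kotzig
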