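import Pool.Agent.Helper70_Kotzig.Defs

namespace Pool.Agent.Helper70_Kotzig

/-- A closed walk in which every pair of vertices occurs exactly once at distance one and exactly
once at distance two gives an Eulerian P-quasigroup. -/
theorem exists_of_twoPerfect {n : ℕ} (v : ZMod (n * (n - 1) / 2) → Fin n)
    (h1 : ∀ i, v i ≠ v (i + 1))
    (h2 : ∀ a b, a ≠ b → ∃! i, s(v i, v (i + 1)) = s(a, b))
    (h3 : ∀ i, v i ≠ v (i + 2))
    (h4 : ∀ a b, a ≠ b → ∃! i, s(v i, v (i + 2)) = s(a, b)) :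
    ∃ op : Fin n → Fin n → Fin n, IsPGroupoid op ∧ IsQuasigroup op ∧ IsEulerian op := by
  classical
  let R : Fin n → Fin n → Fin n → Prop := fun a b c =>
    ∃ i, (a = v i ∧ b = v (i + 1) ∧ c = v (i + 2)) ∨ (c = v i ∧ b = v (i + 1) ∧ a = v (i + 2))
  have e11 : ∀ i : ZMod (n * (n - 1) / 2), i + 1 + 1 = i + 2 := by intro i; ring
  have h1' : ∀ i, v (i + 1) ≠ v (i + 2) := by
    intro i; have := h1 (i + 1); rwa [e11] at this
  have Rsymm : ∀ a b c, R a b c → R c b a := by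
    rintro a b c ⟨i, h | h⟩
    · exact ⟨i, Or.inr ⟨h.1, h.2.1, h.2.2⟩⟩
    · exact ⟨i, Or.inl ⟨h.1, h.2.1, h.2.2⟩⟩
  have Rne1 : ∀ a b c, R a b c → a ≠ b := by
    rintro a b c ⟨i, ⟨ha, hb, hc⟩ | ⟨hc, hb, ha⟩⟩
    · rw [ha, hb]; exact h1 i
    · rw [ha, hb]; exact (h1' i).symm
  have Rne3 : ∀ a b c, R a b c → a ≠ c := by
    rintro a b c ⟨i, ⟨ha, hb, hc⟩ | ⟨hc, hb, ha⟩⟩
    · rw [ha, hc]; exact h3 i
    · rw [ha, hc]; exact (h3 i).symm
  have Rne2 : ∀ a b c, R a b c → b ≠ c := by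
    intro a b c h
    exact (Rne1 _ _ _ (Rsymm _ _ _ h)).symm
  have Rex : ∀ a b, a ≠ b → ∃ c, R a b c := by
    intro a b hab
    obtain ⟨i, hi, -⟩ := h2 a b hab
    rcases Sym2.eq_iff.1 hi with ⟨ha, hb⟩ | ⟨hb, ha⟩
    · exact ⟨v (i + 2), i, Or.inl ⟨ha.symm, hb.symm, rfl⟩⟩
    · refine ⟨v (i - 1), i - 1, Or.inr ⟨rfl, ?_, ?_⟩⟩
      · rw [← hb]; congr 1; ring
      · rw [← ha]; congr 1; ring
  have Rkey : ∀ a b c, R a b c → ∃ i, s(v i, v (i + 1)) = s(a, b) ∧
      ((v i = a ∧ c = v (i + 2)) ∨ (v i = b ∧ c = v (i - 1))) := by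
    rintro a b c ⟨i, ⟨ha, hb, hc⟩ | ⟨hc, hb, ha⟩⟩
    · exact ⟨i, by rw [ha, hb], Or.inl ⟨ha.symm, hc⟩⟩
    · refine ⟨i + 1, ?_, Or.inr ⟨hb.symm, ?_⟩⟩
      · rw [ha, hb, e11, Sym2.eq_swap]
      · rw [hc]; congr 1; ring
  have Runiq : ∀ a b c c', R a b c → R a b c' → c = c' := by
    intro a b c c' h h'
    have hab := Rne1 _ _ _ h
    obtain ⟨i, hi, hi'⟩ := Rkey _ _ _ h
    obtain ⟨j, hj, hj'⟩ := Rkey _ _ _ h'
    have hij : i = j := (h2 a b hab).unique hi hj
    subst hij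
    rcases hi' with ⟨h5, h6⟩ | ⟨h5, h6⟩ <;> rcases hj' with ⟨h7, h8⟩ | ⟨h7, h8⟩
    · rw [h6, h8]
    · exact absurd (h5.symm.trans h7) hab
    · exact absurd (h7.symm.trans h5) hab
    · rw [h6, h8]
  let op : Fin n → Fin n → Fin n := fun a b => if h : a = b then a else Classical.choose (Rex a b h)
  have op_self : ∀ a, op a a = a := by intro a; simp [op]
  have op_spec : ∀ a b, a ≠ b → R a b (op a b) := by
    intro a b hab
    have : op a b = Classical.choose (Rex a b hab) := by simp [op, hab]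
    rw [this]
    exact Classical.choose_spec (Rex a b hab)
  have op_eq : ∀ a b c, R a b c → op a b = c := by
    intro a b c h
    exact Runiq a b _ _ (op_spec a b (Rne1 _ _ _ h)) h
  have op_symm : ∀ a b c, op a b = c → op c b = a := by
    intro a b c h
    by_cases hab : a = b
    · subst hab
      rw [op_self] at h
      subst h
      exact op_self _
    · have := op_spec a b hab
      rw [h] at this
      exact op_eq _ _ _ (Rsymm _ _ _ this)
  refine ⟨op, ⟨op_self, ?_, fun a b c => ⟨op_symm a b c, op_symm c b a⟩⟩, ?_, v, h1, ?_, h2⟩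
  · intro a b hab
    have := op_spec a b hab
    exact ⟨(Rne3 _ _ _ this).symm, (Rne2 _ _ _ this).symm⟩
  · intro a b
    refine ⟨?_, ?_⟩
    · by_cases hab : a = b
      · subst hab
        refine ⟨a, op_self a, ?_⟩
        intro y hy
        by_contra hne
        exact Rne3 _ _ _ (op_spec a y (Ne.symm hne)) hy.symm
      · obtain ⟨i, hi, hiu⟩ := h4 a b hab
        refine ⟨v (i + 1), ?_, ?_⟩
        · apply op_eq
          rcases Sym2.eq_iff.1 hi with ⟨ha, hb⟩ | ⟨hb, ha⟩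
          · exact ⟨i, Or.inl ⟨ha.symm, rfl, hb.symm⟩⟩
          · exact ⟨i, Or.inr ⟨hb.symm, rfl, ha.symm⟩⟩
        · intro x hx
          have hax : a ≠ x := by
            rintro rfl
            change op a a = b at hx
            rw [op_self] at hx
            exact hab hx
          have hR := op_spec a x hax
          change op a x = b at hx
          rw [hx] at hR
          obtain ⟨j, ⟨h5, h6, h7⟩ | ⟨h5, h6, h7⟩⟩ := hR
          · have : j = i := hiu j (by show s(v j, v (j + 2)) = s(a, b); rw [h5, h7])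
            rw [h6, this]
          · have : j = i := hiu j (by
              show s(v j, v (j + 2)) = s(a, b)
              rw [h5, h7, Sym2.eq_swap])
            rw [h6, this]
    · refine ⟨op b a, op_symm _ _ _ rfl, ?_⟩
      intro y hy
      exact (op_symm _ _ _ hy).symm
  · intro i
    exact op_eq _ _ _ ⟨i, Or.inl ⟨rfl, rfl, rfl⟩⟩

end Pool.Agent.Helper70_Kotzig
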